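import Pool.Agent.Helper66.SH.Defs

/-!
# the order of the colouring, the number of conflicts, the class is an induced matching
-/

set_option autoImplicit false

namespace Pool.Agent.SH

open Finset Pool.Agent.SG
open Pool.Agent.SEC (pr)
open scoped Classical

section used
variable {V : Type} [Fintype V] (adj : V → V → Prop) {K N : ℕ} (l : V → Fin K → Fin N)
  (acc : V → V → Prop) (sx : V → ℕ) (U : Finset (Sym2 V)) (b : ℕ)

theorem mem_used {z y : V} : (z, y) ∈ used adj l acc sx U b ↔ acc z y ∧ s(z, y) ∈ U ∧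
    (fb1 adj l acc sx z y ∩ U).card + (fb2 adj l acc y ∩ U).card ≤ b := by
  simp only [used, mem_filter, mem_univ, true_and]

theorem mem_fb1 {z y z' y' : V} (h : acc z' y')
    (h' : (adj z y' ∧ dl adj l y' < dl adj l y) ∨ (z' = z ∧ sx y' < sx y)) :
    s(z', y') ∈ fb1 adj l acc sx z y := by
  unfold fb1
  rw [mem_image]
  exact ⟨(z', y'), mem_filter.2 ⟨mem_univ _, h, h'⟩, rfl⟩

theorem mem_fb2 {y z' y' : V} (h : acc z' y') (h' : adj y y') (h'' : dl adj l y' < dl adj l y) :
    s(z', y') ∈ fb2 adj l acc y := by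
  unfold fb2
  rw [mem_image]
  exact ⟨(z', y'), mem_filter.2 ⟨mem_univ _, h, h', h''⟩, rfl⟩

/-- a set of heads is not larger than a set containing the edges of their arcs -/
theorem card_heads (hsym : ∀ x y, adj x y → adj y x)
    (hacc : ∀ z y, acc z y → ∃ k < K, SG.arc adj l k z y) (A : Finset V) (F : Finset (Sym2 V))
    (h : ∀ w ∈ A, ∃ z, acc z w ∧ s(z, w) ∈ F) : A.card ≤ F.card := by
  have hex : ∀ w : V, ∃ z : V, w ∈ A → acc z w ∧ s(z, w) ∈ F := by
    intro w
    by_cases hw : w ∈ A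
    · obtain ⟨z, hz⟩ := h w hw
      exact ⟨z, fun _ => hz⟩
    · exact ⟨w, fun h' => absurd h' hw⟩
  choose f hf using hex
  refine card_le_card_of_injOn (fun w => s(f w, w)) ?_ ?_
  · intro w hw
    exact (hf w hw).2
  · intro w hw w' hw' hww
    obtain ⟨k1, _, h1⟩ := hacc _ _ (hf w hw).1
    obtain ⟨k2, _, h2⟩ := hacc _ _ (hf w' hw').1
    dsimp only at hww
    rcases Sym2.eq_iff.1 hww with ⟨_, h⟩ | ⟨h, h'⟩
    · exact h
    · by_cases hne : f w = f w'
      · rw [h', ← hne, h]
      · exfalso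
        rcases le_total k1 k2 with hkk | hkk
        · exact (arc_arc adj l hsym h1 h2 hkk hne).1 h
        · exact (arc_arc adj l hsym h2 h1 hkk (Ne.symm hne)).1 h'.symm

end used

section cls
variable {V : Type} [Fintype V] (adj : V → V → Prop) (hsym : ∀ x y, adj x y → adj y x)
  (hirr : ∀ x, ¬ adj x x) {K N : ℕ} (acc : (V → Fin K → Fin N) → V → V → Prop)
  (hacc : ∀ l z y, acc l z y → ∃ k < K, SG.arc adj l k z y)
  (sx : V → ℕ) (hsx : Function.Injective sx) (hsc : ∀ v, sx v < Fintype.card V)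
  (U : Finset (Sym2 V)) (b : ℕ)

include hsym hirr hacc hsx hsc

/-- the order of the colouring -/
theorem back_ord (l : V → Fin K → Fin N) (y y' : V)
    (h : y' ∈ back adj l (acc l) sx U b y) : ord adj l sx y' < ord adj l sx y := by
  unfold back at h
  rw [mem_filter] at h
  obtain ⟨_, z, z', hz, hz', h⟩ := h
  unfold ord
  rcases h with ⟨h, _⟩ | ⟨h, h'⟩
  · have h1 := hsc y'
    have h2 : (dl adj l y' + 1) * Fintype.card V ≤ dl adj l y * Fintype.card V :=
      Nat.mul_le_mul_right _ h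
    rw [add_mul, one_mul] at h2
    omega
  · subst h
    rw [mem_used] at hz hz'
    obtain ⟨k, hk, h1⟩ := hacc l _ _ hz.1
    obtain ⟨k', hk', h1'⟩ := hacc l _ _ hz'.1
    rw [dl_head adj l hsym hk h1, dl_head adj l hsym hk' h1', arc_same adj l hsym h1 h1']
    omega

/-- the number of conflicts -/
theorem card_back (l : V → Fin K → Fin N) (y : V) :
    (back adj l (acc l) sx U b y).card ≤ b := by
  by_cases hy : ∃ z, (z, y) ∈ used adj l (acc l) sx U b
  · obtain ⟨z, hz⟩ := hy
    obtain ⟨hza, hzU, hb⟩ := (mem_used adj l (acc l) sx U b).1 hz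
    obtain ⟨k, hk, harc⟩ := hacc l _ _ hza
    let A : Finset V := univ.filter (fun w => ∃ z', acc l z' w ∧
      s(z', w) ∈ fb1 adj l (acc l) sx z y ∩ U)
    let B : Finset V := univ.filter (fun w => ∃ z', acc l z' w ∧
      s(z', w) ∈ fb2 adj l (acc l) y ∩ U)
    have hsub : back adj l (acc l) sx U b y ⊆ A ∪ B := by
      intro y' hy'
      unfold back at hy'
      rw [mem_filter] at hy'
      obtain ⟨_, z1, z', hz1, hz', h⟩ := hy'
      obtain ⟨hz1a, _⟩ := (mem_used adj l (acc l) sx U b).1 hz1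
      obtain ⟨hz'a, hz'U, _⟩ := (mem_used adj l (acc l) sx U b).1 hz'
      obtain ⟨k1, hk1, harc1⟩ := hacc l _ _ hz1a
      have hz1z : z1 = z := arc_head_unique adj l hsym harc1 harc
      subst hz1z
      rw [mem_union, mem_filter, mem_filter]
      rcases h with ⟨h, h' | h'⟩ | ⟨h, h'⟩
      · exact Or.inl ⟨mem_univ _, z', hz'a,
          mem_inter.2 ⟨mem_fb1 adj l (acc l) sx hz'a (Or.inl ⟨h', h⟩), hz'U⟩⟩
      · exact Or.inr ⟨mem_univ _, z', hz'a,
          mem_inter.2 ⟨mem_fb2 adj l (acc l) hz'a h' h, hz'U⟩⟩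
      · exact Or.inl ⟨mem_univ _, z', hz'a,
          mem_inter.2 ⟨mem_fb1 adj l (acc l) sx hz'a (Or.inr ⟨h, h'⟩), hz'U⟩⟩
    refine (card_le_card hsub).trans ((card_union_le _ _).trans (le_trans ?_ hb))
    refine Nat.add_le_add ?_ ?_
    · exact card_heads adj l (acc l) hsym (hacc l) A _ fun w hw => (mem_filter.1 hw).2
    · exact card_heads adj l (acc l) hsym (hacc l) B _ fun w hw => (mem_filter.1 hw).2
  · have : back adj l (acc l) sx U b y = ∅ := by
      unfold back
      rw [filter_eq_empty_iff]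
      rintro y' _ ⟨z, z', hz, _⟩
      exact hy ⟨z, hz⟩
    rw [this, card_empty]
    exact Nat.zero_le _

/-- the class is an induced matching -/
theorem cls_ind {P : ℕ} (c₀ : Fin P)
    (ω : V → (Fin K → Fin N) × Equiv.Perm (Fin P)) (e e' : Sym2 V)
    (he : e ∈ cls adj acc sx U b c₀ ω) (he' : e' ∈ cls adj acc sx U b c₀ ω) (hne : e ≠ e') :
    ¬ Conf adj e e' := by
  unfold cls at he he'
  rw [mem_image] at he he'
  obtain ⟨⟨z, y⟩, ha, rfl⟩ := he
  obtain ⟨⟨z', y'⟩, ha', rfl⟩ := he'
  rw [mem_filter] at ha ha'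
  obtain ⟨hz, hc, hs⟩ := ha
  obtain ⟨hz', hc', hs'⟩ := ha'
  dsimp only at hc hc' hs hs' hne ⊢
  obtain ⟨k, hk, harc⟩ := hacc _ _ _ ((mem_used adj _ _ sx U b).1 hz).1
  obtain ⟨k', hk', harc'⟩ := hacc _ _ _ ((mem_used adj _ _ sx U b).1 hz').1
  have hbk := back_ord adj hsym hirr acc hacc sx hsx hsc U b (fun v => (ω v).1)
  have key : ∀ w w', w' ∈ back adj (fun v => (ω v).1) (acc (fun v => (ω v).1)) sx U b w →
      colr adj acc sx U b (fun v => (ω v).1) (fun v => (ω v).2) w = some c₀ →
      colr adj acc sx U b (fun v => (ω v).1) (fun v => (ω v).2) w' = some c₀ → False := by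
    intro w w' h h1 h2
    exact gcol_ne _ _ hbk (fun v => (ω v).2) w w' h c₀ h1 h2
  by_cases hzz : z = z'
  · subst hzz
    exfalso
    have hyy : y ≠ y' := by
      rintro rfl
      exact hne rfl
    have hii : sx y ≠ sx y' := fun h => hyy (hsx h)
    rcases Nat.lt_or_gt_of_ne hii with h | h
    · refine key y' y ?_ hc' hc
      unfold back
      rw [mem_filter]
      exact ⟨mem_univ _, z, z, hz', hz, Or.inr ⟨rfl, h⟩⟩
    · refine key y y' ?_ hc hc'
      unfold back
      rw [mem_filter]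
      exact ⟨mem_univ _, z, z, hz, hz', Or.inr ⟨rfl, h⟩⟩
  · -- the ordered case
    have mem_lt : ∀ {z y z' y' : V},
        (z, y) ∈ used adj (fun v => (ω v).1) (acc (fun v => (ω v).1)) sx U b →
        (z', y') ∈ used adj (fun v => (ω v).1) (acc (fun v => (ω v).1)) sx U b →
        dl adj (fun v => (ω v).1) y < dl adj (fun v => (ω v).1) y' → (adj z' y ∨ adj y' y) →
        y ∈ back adj (fun v => (ω v).1) (acc (fun v => (ω v).1)) sx U b y' := by
      intro z y z' y' h h' hdl hadj
      unfold back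
      rw [mem_filter]
      exact ⟨mem_univ _, z', z, h', h, Or.inl ⟨hdl, hadj⟩⟩
    have main : ∀ (z y z' y' : V) (k k' : ℕ), k < K → k' < K →
        SG.arc adj (fun v => (ω v).1) k z y → SG.arc adj (fun v => (ω v).1) k' z' y' →
        (z, y) ∈ used adj (fun v => (ω v).1) (acc (fun v => (ω v).1)) sx U b →
        (z', y') ∈ used adj (fun v => (ω v).1) (acc (fun v => (ω v).1)) sx U b →
        colr adj acc sx U b (fun v => (ω v).1) (fun v => (ω v).2) y = some c₀ →
        colr adj acc sx U b (fun v => (ω v).1) (fun v => (ω v).2) y' = some c₀ →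
        (∀ z' y', adj y y' → z' ≠ z →
          (z', y') ∈ used adj (fun v => (ω v).1) (acc (fun v => (ω v).1)) sx U b →
          dl adj (fun v => (ω v).1) y' = dl adj (fun v => (ω v).1) y →
          colr adj acc sx U b (fun v => (ω v).1) (fun v => (ω v).2) y' ≠ some c₀) →
        k ≤ k' → z ≠ z' → ¬ Conf adj s(z, y) s(z', y') := by
      intro z y z' y' k k' hk hk' harc harc' hz hz' hc hc' hs hkk hzz
      obtain ⟨h1, h2, h3, h4, h5, h6⟩ := arc_arc adj _ hsym harc harc' hkk hzz
      have hdy := dl_head adj _ hsym hk harc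
      have hdy' := dl_head adj _ hsym hk' harc'
      rintro ⟨u, hu, v, hv, h⟩
      rw [Sym2.mem_iff] at hu hv
      rcases hu with rfl | rfl <;> rcases hv with rfl | rfl
      · exact h.elim hzz h4
      · exact h.elim h1 h5
      · rcases h with h | h
        · exact h2 h
        · have hlt := h6 (hsym _ _ h)
          exact key y' _ (mem_lt hz hz' (by omega) (Or.inl (hsym _ _ h))) hc' hc
      · rcases h with h | h
        · exact h3 h
        · rcases Nat.lt_or_ge k k' with hlt | hge
          · exact key _ _ (mem_lt hz hz' (by omega) (Or.inr (hsym _ _ h))) hc' hc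
          · exact hs z' _ h (Ne.symm hzz) hz' (by omega) hc'
    have conf_symm : Conf adj s(z, y) s(z', y') → Conf adj s(z', y') s(z, y) := by
      rintro ⟨u, hu, v, hv, h⟩
      exact ⟨v, hv, u, hu, h.elim (fun h => Or.inl h.symm) (fun h => Or.inr (hsym _ _ h))⟩
    rcases le_total k k' with hkk | hkk
    · exact main z y z' y' k k' hk hk' harc harc' hz hz' hc hc' hs hkk hzz
    · intro hconf
      exact main z' y' z y k' k hk' hk harc' harc hz' hz hc' hc hs' hkk (Ne.symm hzz)
        (conf_symm hconf)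

end cls

end Pool.Agent.SH
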