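import Pool.Agent.Helper66.SH.Back

/-!
# locality of the class
-/

set_option autoImplicit false

namespace Pool.Agent.SH

open Finset Pool.Agent.SG
open Pool.Agent.SEC (pr)
open scoped Classical

namespace ClsLoc

section loc
variable {V : Type} [Fintype V] (adj : V → V → Prop)

theorem mem_ball_zero (x z : V) : z ∈ ball adj 0 x ↔ z = x := by
  simp [ball]

theorem mem_ball_succ (n : ℕ) (x z : V) :
    z ∈ ball adj (n + 1) x ↔ (z ∈ ball adj n x ∨ ∃ z' ∈ ball adj n x, adj z' z) := by
  simp [ball]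

theorem ball_mono {m n : ℕ} (h : m ≤ n) {x z : V} (hz : z ∈ ball adj m x) :
    z ∈ ball adj n x := by
  induction n, h using Nat.le_induction with
  | base => exact hz
  | succ n _ ih => exact (mem_ball_succ adj n x z).2 (Or.inl ih)

theorem self_mem (n : ℕ) (x : V) : x ∈ ball adj n x :=
  ball_mono adj (Nat.zero_le n) ((mem_ball_zero adj x x).2 rfl)

theorem step {n : ℕ} {x y z : V} (h : y ∈ ball adj n x) (h' : adj y z) :
    z ∈ ball adj (n + 1) x :=
  (mem_ball_succ adj n x z).2 (Or.inr ⟨y, h, h'⟩)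

theorem trans {m n : ℕ} {x z w : V} (h : z ∈ ball adj m x) (h' : w ∈ ball adj n z) :
    w ∈ ball adj (m + n) x := by
  induction n generalizing w with
  | zero =>
    rw [mem_ball_zero] at h'
    subst h'
    exact h
  | succ n ih =>
    rw [mem_ball_succ] at h'
    rcases h' with h' | ⟨z', h', ha⟩
    · exact ball_mono adj (by omega) (ih h')
    · exact step adj (ih h') ha

theorem trans' {m n p : ℕ} {x z w : V} (h : z ∈ ball adj m x) (h' : w ∈ ball adj n z)
    (hp : m + n ≤ p) : w ∈ ball adj p x := ball_mono adj hp (trans adj h h')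

variable {K N : ℕ}

theorem rings_congr {l l' : V → Fin K → Fin N} {v : V} (h : l v = l' v) (k : ℕ) :
    rings l k v ↔ rings l' k v := by
  unfold rings
  rw [h]

theorem alive_congr {l l' : V → Fin K → Fin N} (k : ℕ) (v : V)
    (h : ∀ w ∈ ball adj k v, l w = l' w) : alive adj l k v ↔ alive adj l' k v := by
  induction k generalizing v with
  | zero => simp [alive]
  | succ k ih =>
    unfold alive
    have h1 : alive adj l k v ↔ alive adj l' k v :=
      ih v (fun w hw => h w (ball_mono adj (Nat.le_succ k) hw))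
    have h2 : ∀ z, (z = v ∨ adj v z) → ((alive adj l k z ↔ alive adj l' k z) ∧
        (rings l k z ↔ rings l' k z)) := by
      intro z hz
      have hz1 : z ∈ ball adj 1 v := by
        rcases hz with hz | hz
        · rw [hz]
          exact self_mem adj 1 v
        · exact step adj (self_mem adj 0 v) hz
      refine ⟨ih z (fun w hw => h w (trans' adj hz1 hw (by omega))), ?_⟩
      exact rings_congr (h z (ball_mono adj (by omega) hz1)) k
    constructor
    · rintro ⟨ha, hb⟩
      refine ⟨h1.1 ha, fun z hz hz' => ?_⟩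
      rw [← (h2 z hz).2]
      exact hb z hz ((h2 z hz).1.2 hz')
    · rintro ⟨ha, hb⟩
      refine ⟨h1.2 ha, fun z hz hz' => ?_⟩
      rw [(h2 z hz).2]
      exact hb z hz ((h2 z hz).1.1 hz')

theorem arc_imp {l l' : V → Fin K → Fin N} {k : ℕ} {z y : V}
    (h : ∀ w ∈ ball adj (k + 2) z, l w = l' w) (ha : arc adj l k z y) : arc adj l' k z y := by
  obtain ⟨h1, h2, h3, h4, h5⟩ := ha
  have hy : y ∈ ball adj 1 z := step adj (self_mem adj 0 z) h1
  refine ⟨h1, (alive_congr adj k z (fun w hw => h w (ball_mono adj (by omega) hw))).1 h2,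
    (alive_congr adj k y (fun w hw => h w (trans' adj hy hw (by omega)))).1 h3,
    (rings_congr (h z (self_mem adj _ z)) k).1 h4, fun w hw hw' => ?_⟩
  have hw2 : w ∈ ball adj 2 z := by
    rcases hw' with hw' | hw'
    · exact ball_mono adj (by omega) (step adj (self_mem adj 0 z) hw')
    · exact step adj hy hw'
  rw [← rings_congr (h w (ball_mono adj (by omega) hw2)) k]
  exact h5 w hw hw'

theorem arc_congr {l l' : V → Fin K → Fin N} {k : ℕ} {z y : V}
    (h : ∀ w ∈ ball adj (k + 2) z, l w = l' w) : arc adj l k z y ↔ arc adj l' k z y :=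
  ⟨arc_imp adj h, arc_imp adj (fun w hw => (h w hw).symm)⟩

variable (hsym : ∀ x y, adj x y → adj y x)
include hsym

theorem hd_congr {l l' : V → Fin K → Fin N} {k : ℕ} {v : V}
    (h : ∀ w ∈ ball adj (k + 3) v, l w = l' w) : hd adj l k v = hd adj l' k v := by
  unfold hd
  congr 1
  ext a
  simp only [mem_filter, mem_univ, true_and]
  constructor
  · rintro ⟨h1, k', hk', h2⟩
    refine ⟨h1, k', hk', arc_imp adj (fun w hw => h w ?_) h2⟩
    have : a.1 ∈ ball adj 2 v :=
      step adj (step adj (self_mem adj 0 v) h1) (hsym _ _ h2.1)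
    exact trans' adj this hw (by omega)
  · rintro ⟨h1, k', hk', h2⟩
    refine ⟨h1, k', hk', arc_imp adj (fun w hw => (h w ?_).symm) h2⟩
    have : a.1 ∈ ball adj 2 v :=
      step adj (step adj (self_mem adj 0 v) h1) (hsym _ _ h2.1)
    exact trans' adj this hw (by omega)

omit hsym in
theorem dl_congr {l l' : V → Fin K → Fin N} {v : V}
    (h : ∀ w ∈ ball adj K v, l w = l' w) : dl adj l v = dl adj l' v := by
  unfold dl
  congr 1
  apply filter_congr
  intro k hk
  rw [mem_range] at hk
  exact alive_congr adj (k + 1) v (fun w hw => h w (ball_mono adj (by omega) hw))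

omit hsym in
theorem dl_le (l : V → Fin K → Fin N) (v : V) : dl adj l v ≤ K := by
  unfold dl
  calc _ ≤ (range K).card := card_filter_le _ _
    _ = K := card_range K

end loc

section cls
variable {V : Type} [Fintype V] (adj : V → V → Prop) (hsym : ∀ x y, adj x y → adj y x)
  {K N : ℕ} (acc : (V → Fin K → Fin N) → V → V → Prop)
  (hacc : ∀ l z y, acc l z y → ∃ k < K, SG.arc adj l k z y)
  (sx : V → ℕ) (U : Finset (Sym2 V)) (b r : ℕ)
  (hloc : ∀ l l' z y, (∀ v ∈ ball adj r z, l v = l' v) → (acc l z y ↔ acc l' z y))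

include hacc in
theorem acc_adj {l : V → Fin K → Fin N} {z y : V} (h : acc l z y) : adj z y := by
  obtain ⟨k, _, hk⟩ := hacc l z y h
  exact hk.1

include hsym hacc hloc in
theorem fb1_sub {l l' : V → Fin K → Fin N} {z y : V} (hzy : adj z y)
    (h : ∀ w ∈ ball adj (K + r + 3) z, l w = l' w) :
    fb1 adj l (acc l) sx z y ⊆ fb1 adj l' (acc l') sx z y := by
  unfold fb1
  apply image_subset_image
  intro a ha
  simp only [mem_filter, mem_univ, true_and] at ha ⊢
  obtain ⟨h1, h2⟩ := ha
  have hy : y ∈ ball adj 1 z := step adj (self_mem adj 0 z) hzy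
  have ha1 : a.1 ∈ ball adj 2 z := by
    rcases h2 with ⟨h2, _⟩ | ⟨h2, _⟩
    · exact step adj (step adj (self_mem adj 0 z) h2) (hsym _ _ (acc_adj adj acc hacc h1))
    · rw [h2]
      exact self_mem adj 2 z
  refine ⟨(hloc l l' a.1 a.2 (fun v hv => h v (trans' adj ha1 hv (by omega)))).1 h1, ?_⟩
  rcases h2 with ⟨h2, h3⟩ | ⟨h2, h3⟩
  · left
    refine ⟨h2, ?_⟩
    have ha2 : a.2 ∈ ball adj 1 z := step adj (self_mem adj 0 z) h2
    rw [← dl_congr adj (l := l) (l' := l') (v := a.2)
        (fun w hw => h w (trans' adj ha2 hw (by omega))),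
      ← dl_congr adj (l := l) (l' := l') (v := y)
        (fun w hw => h w (trans' adj hy hw (by omega)))]
    exact h3
  · right
    exact ⟨h2, h3⟩

include hsym hacc hloc in
theorem fb2_sub {l l' : V → Fin K → Fin N} {z y : V} (hzy : adj z y)
    (h : ∀ w ∈ ball adj (K + r + 3) z, l w = l' w) :
    fb2 adj l (acc l) y ⊆ fb2 adj l' (acc l') y := by
  unfold fb2
  apply image_subset_image
  intro a ha
  simp only [mem_filter, mem_univ, true_and] at ha ⊢
  obtain ⟨h1, h2, h3⟩ := ha
  have hy : y ∈ ball adj 1 z := step adj (self_mem adj 0 z) hzy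
  have ha2 : a.2 ∈ ball adj 2 z := step adj hy h2
  have ha1 : a.1 ∈ ball adj 3 z := step adj ha2 (hsym _ _ (acc_adj adj acc hacc h1))
  refine ⟨(hloc l l' a.1 a.2 (fun v hv => h v (trans' adj ha1 hv (by omega)))).1 h1, h2, ?_⟩
  rw [← dl_congr adj (l := l) (l' := l') (v := a.2)
      (fun w hw => h w (trans' adj ha2 hw (by omega))),
    ← dl_congr adj (l := l) (l' := l') (v := y)
      (fun w hw => h w (trans' adj hy hw (by omega)))]
  exact h3

include hsym hacc hloc

theorem used_imp {l l' : V → Fin K → Fin N} {z y : V}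
    (h : ∀ w ∈ ball adj (K + r + 3) z, l w = l' w) (ha : (z, y) ∈ used adj l (acc l) sx U b) :
    (z, y) ∈ used adj l' (acc l') sx U b := by
  unfold used at ha ⊢
  simp only [mem_filter, mem_univ, true_and] at ha ⊢
  obtain ⟨h1, h2, h3⟩ := ha
  have hzy : adj z y := acc_adj adj acc hacc h1
  have e1 : fb1 adj l' (acc l') sx z y = fb1 adj l (acc l) sx z y :=
    Subset.antisymm (fb1_sub adj hsym acc hacc sx r hloc hzy (fun w hw => (h w hw).symm))
      (fb1_sub adj hsym acc hacc sx r hloc hzy h)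
  have e2 : fb2 adj l' (acc l') y = fb2 adj l (acc l) y :=
    Subset.antisymm (fb2_sub adj hsym acc hacc r hloc hzy (fun w hw => (h w hw).symm))
      (fb2_sub adj hsym acc hacc r hloc hzy h)
  rw [e1, e2]
  exact ⟨(hloc l l' z y (fun v hv => h v (ball_mono adj (by omega) hv))).1 h1, h2, h3⟩

omit hsym hloc in
theorem used_adj {l : V → Fin K → Fin N} {z y : V}
    (ha : (z, y) ∈ used adj l (acc l) sx U b) : adj z y := by
  unfold used at ha
  simp only [mem_filter, mem_univ, true_and] at ha
  exact acc_adj adj acc hacc ha.1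

omit hsym hloc in
theorem used_arc {l : V → Fin K → Fin N} {z y : V}
    (ha : (z, y) ∈ used adj l (acc l) sx U b) : ∃ k < K, arc adj l k z y := by
  unfold used at ha
  simp only [mem_filter, mem_univ, true_and] at ha
  exact hacc l z y ha.1

theorem back_sub {l l' : V → Fin K → Fin N} {y : V}
    (h : ∀ w ∈ ball adj (K + r + 6) y, l w = l' w) :
    back adj l (acc l) sx U b y ⊆ back adj l' (acc l') sx U b y := by
  intro y' hy'
  unfold back at hy' ⊢
  simp only [mem_filter, mem_univ, true_and] at hy' ⊢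
  obtain ⟨z, z', h1, h2, h3⟩ := hy'
  have hz : z ∈ ball adj 1 y :=
    step adj (self_mem adj 0 y) (hsym _ _ (used_adj adj acc hacc sx U b h1))
  have hy2 : y' ∈ ball adj 2 y := by
    rcases h3 with ⟨_, h3 | h3⟩ | ⟨h3, _⟩
    · exact step adj hz h3
    · exact ball_mono adj (by omega) (step adj (self_mem adj 0 y) h3)
    · rw [h3] at h2
      exact step adj hz (used_adj adj acc hacc sx U b h2)
  have hz' : z' ∈ ball adj 3 y := step adj hy2 (hsym _ _ (used_adj adj acc hacc sx U b h2))
  refine ⟨z, z',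
    used_imp adj hsym acc hacc sx U b r hloc
      (fun w hw => h w (trans' adj hz hw (by omega))) h1,
    used_imp adj hsym acc hacc sx U b r hloc
      (fun w hw => h w (trans' adj hz' hw (by omega))) h2, ?_⟩
  rw [← dl_congr adj (l := l) (l' := l') (v := y)
      (fun w hw => h w (ball_mono adj (by omega) hw)),
    ← dl_congr adj (l := l) (l' := l') (v := y')
      (fun w hw => h w (trans' adj hy2 hw (by omega)))]
  exact h3

theorem back_congr {l l' : V → Fin K → Fin N} {y : V}
    (h : ∀ w ∈ ball adj (K + r + 6) y, l w = l' w) :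
    back adj l (acc l) sx U b y = back adj l' (acc l') sx U b y :=
  Subset.antisymm (back_sub adj hsym acc hacc sx U b r hloc h)
    (back_sub adj hsym acc hacc sx U b r hloc (fun w hw => (h w hw).symm))

omit hloc in
theorem used_tail {l : V → Fin K → Fin N} {z z' y : V}
    (h : (z, y) ∈ used adj l (acc l) sx U b) (h' : (z', y) ∈ used adj l (acc l) sx U b) :
    z = z' := by
  by_contra hne
  obtain ⟨k, hk, ha⟩ := used_arc adj acc hacc sx U b h
  obtain ⟨k', hk', ha'⟩ := used_arc adj acc hacc sx U b h'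
  rcases le_total k k' with hkk | hkk
  · exact (arc_arc adj l hsym ha ha' hkk hne).2.2.1 rfl
  · exact (arc_arc adj l hsym ha' ha hkk (Ne.symm hne)).2.2.1 rfl

omit hloc in
theorem used_dl {l : V → Fin K → Fin N} {z y : V}
    (h : (z, y) ∈ used adj l (acc l) sx U b) : dl adj l y = dl adj l z := by
  obtain ⟨k, hk, ha⟩ := used_arc adj acc hacc sx U b h
  rw [dl_tail adj l hk ha, dl_head adj l hsym hk ha]

end cls

section cls2
variable {V : Type} [Fintype V] (adj : V → V → Prop) (hsym : ∀ x y, adj x y → adj y x)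
  (hirr : ∀ x, ¬ adj x x) {K N : ℕ} (acc : (V → Fin K → Fin N) → V → V → Prop)
  (hacc : ∀ l z y, acc l z y → ∃ k < K, SG.arc adj l k z y)
  (sx : V → ℕ) (hsx : Function.Injective sx) (hsc : ∀ v, sx v < Fintype.card V)
  (U : Finset (Sym2 V)) (b r : ℕ)
  (hloc : ∀ l l' z y, (∀ v ∈ ball adj r z, l v = l' v) → (acc l z y ↔ acc l' z y))

include hsym hirr hacc hsx hsc hloc

theorem colr_congr {P : ℕ} (l l' : V → Fin K → Fin N) (π π' : V → Equiv.Perm (Fin P))
    (z y : V) (hu : (z, y) ∈ used adj l (acc l) sx U b)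
    (h : ∀ v ∈ ball adj (4 * K + r + 7) z, l v = l' v)
    (h' : ∀ v ∈ ball adj (4 * K + r + 7) z, π v = π' v) :
    colr adj acc sx U b l π y = colr adj acc sx U b l' π' y := by
  unfold colr
  refine gcol_congr (ord adj l sx) (back adj l (acc l) sx U b)
    (fun y y' hy => back_ord adj hsym hirr acc hacc sx hsx hsc U b l y y' hy)
    (fun y y' hy => back_ord adj hsym hirr acc hacc sx hsx hsc U b l' y y' hy) π π'
    (fun w => ∃ zw, (zw, w) ∈ used adj l (acc l) sx U b ∧ dl adj l w ≤ dl adj l y ∧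
      zw ∈ ball adj (3 * (dl adj l y - dl adj l w)) z) ?_ y
    ⟨z, hu, le_rfl, self_mem adj _ z⟩
  rintro w ⟨zw, hw, hd, hb⟩
  have hK := dl_le adj l y
  have hwz : w ∈ ball adj (3 * K + 1) z :=
    ball_mono adj (by omega) (step adj hb (used_adj adj acc hacc sx U b hw))
  refine ⟨back_congr adj hsym acc hacc sx U b r hloc
      (fun v hv => h v (trans' adj hwz hv (by omega))),
    h' w (ball_mono adj (by omega) hwz), fun w' hw' => ?_⟩
  unfold back at hw'
  simp only [mem_filter, mem_univ, true_and] at hw'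
  obtain ⟨z1, z1', h1, h2, h3⟩ := hw'
  have hz1 : z1 = zw := used_tail adj hsym acc hacc sx U b h1 hw
  subst hz1
  refine ⟨z1', h2, ?_⟩
  rcases h3 with ⟨hlt, h3⟩ | ⟨h3, _⟩
  · refine ⟨by omega, ?_⟩
    have h4 : w' ∈ ball adj 2 z1 := by
      rcases h3 with h3 | h3
      · exact ball_mono adj (by omega) (step adj (self_mem adj 0 z1) h3)
      · exact step adj (step adj (self_mem adj 0 z1) (used_adj adj acc hacc sx U b h1)) h3
    have h5 : z1' ∈ ball adj 3 z1 := step adj h4 (hsym _ _ (used_adj adj acc hacc sx U b h2))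
    exact trans' adj hb h5 (by omega)
  · subst h3
    have e1 := used_dl adj hsym acc hacc sx U b h1
    have e2 := used_dl adj hsym acc hacc sx U b h2
    rw [e2, ← e1]
    exact ⟨hd, hb⟩

theorem cls_imp (P : ℕ) (c₀ : Fin P) (e : Sym2 V)
    (ω ω' : V → (Fin K → Fin N) × Equiv.Perm (Fin P))
    (h : ∀ v ∈ eball adj (4 * K + r + 20) e, ω v = ω' v)
    (he : e ∈ cls adj acc sx U b c₀ ω) : e ∈ cls adj acc sx U b c₀ ω' := by
  unfold cls at he ⊢
  simp only [mem_image, mem_filter] at he ⊢
  obtain ⟨⟨z, y⟩, ⟨hu, hc, hn⟩, hs⟩ := he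
  simp only at hu hc hn hs
  have hz : z ∈ e := by
    rw [← hs]
    exact Sym2.mem_mk_left z y
  have hball : ∀ v, v ∈ ball adj (4 * K + r + 20) z → ω v = ω' v := by
    intro v hv
    apply h
    unfold eball
    simp only [mem_filter, mem_univ, true_and]
    exact ⟨z, hz, hv⟩
  have hl : ∀ v, v ∈ ball adj (4 * K + r + 20) z → (ω v).1 = (ω' v).1 :=
    fun v hv => by rw [hball v hv]
  have hπ : ∀ v, v ∈ ball adj (4 * K + r + 20) z → (ω v).2 = (ω' v).2 :=
    fun v hv => by rw [hball v hv]
  have hzy : adj z y := used_adj adj acc hacc sx U b (l := fun v => (ω v).1) hu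
  have hy1 : y ∈ ball adj 1 z := step adj (self_mem adj 0 z) hzy
  refine ⟨(z, y), ⟨?_, ?_, ?_⟩, hs⟩
  · exact used_imp adj hsym acc hacc sx U b r hloc (l := fun v => (ω v).1)
      (l' := fun v => (ω' v).1) (fun w hw => hl w (ball_mono adj (by omega) hw)) hu
  · rw [← colr_congr adj hsym hirr acc hacc sx hsx hsc U b r hloc (fun v => (ω v).1)
      (fun v => (ω' v).1)
      (fun v => (ω v).2) (fun v => (ω' v).2) z y hu
      (fun v hv => hl v (ball_mono adj (by omega) hv))
      (fun v hv => hπ v (ball_mono adj (by omega) hv))]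
    exact hc
  · intro z' y' hyy hzz hu' hd'
    simp only at hyy hzz hd'
    have hy2 : y' ∈ ball adj 2 z := step adj hy1 hyy
    have hz3 : z' ∈ ball adj 3 z := step adj hy2 (hsym _ _
      (used_adj adj acc hacc sx U b (l := fun v => (ω' v).1) hu'))
    have hu2 : (z', y') ∈ used adj (fun v => (ω v).1) (acc (fun v => (ω v).1)) sx U b :=
      used_imp adj hsym acc hacc sx U b r hloc (l := fun v => (ω' v).1)
        (l' := fun v => (ω v).1)
        (fun w hw => (hl w (trans' adj hz3 hw (by omega))).symm) hu'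
    have hd2 : dl adj (fun v => (ω v).1) y' = dl adj (fun v => (ω v).1) y := by
      rw [dl_congr adj (l := fun v => (ω v).1) (l' := fun v => (ω' v).1) (v := y')
          (fun w hw => hl w (trans' adj hy2 hw (by omega))),
        dl_congr adj (l := fun v => (ω v).1) (l' := fun v => (ω' v).1) (v := y)
          (fun w hw => hl w (trans' adj hy1 hw (by omega)))]
      exact hd'
    have hc2 := hn z' y' hyy hzz hu2 hd2
    rw [← colr_congr adj hsym hirr acc hacc sx hsx hsc U b r hloc (fun v => (ω v).1)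
      (fun v => (ω' v).1)
      (fun v => (ω v).2) (fun v => (ω' v).2) z' y' hu2
      (fun v hv => hl v (trans' adj hz3 hv (by omega)))
      (fun v hv => hπ v (trans' adj hz3 hv (by omega)))]
    exact hc2

end cls2

end ClsLoc

section cls
variable {V : Type} [Fintype V] (adj : V → V → Prop) (hsym : ∀ x y, adj x y → adj y x)
  (hirr : ∀ x, ¬ adj x x) {K N : ℕ} (acc : (V → Fin K → Fin N) → V → V → Prop)
  (hacc : ∀ l z y, acc l z y → ∃ k < K, SG.arc adj l k z y)
  (sx : V → ℕ) (hsx : Function.Injective sx) (hsc : ∀ v, sx v < Fintype.card V)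
  (U : Finset (Sym2 V)) (b : ℕ)

include hsym hirr hacc hsx hsc


/-- locality -/
theorem cls_loc (r : ℕ)
    (hloc : ∀ l l' z y, (∀ v ∈ ball adj r z, l v = l' v) → (acc l z y ↔ acc l' z y))
    (P : ℕ) (c₀ : Fin P) (e : Sym2 V)
    (ω ω' : V → (Fin K → Fin N) × Equiv.Perm (Fin P))
    (h : ∀ v ∈ eball adj (4 * K + r + 20) e, ω v = ω' v) :
    e ∈ cls adj acc sx U b c₀ ω ↔ e ∈ cls adj acc sx U b c₀ ω' :=
  ⟨ClsLoc.cls_imp adj hsym hirr acc hacc sx hsx hsc U b r hloc P c₀ e ω ω' h,
    ClsLoc.cls_imp adj hsym hirr acc hacc sx hsx hsc U b r hloc P c₀ e ω' ω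
      (fun v hv => (h v hv).symm)⟩

end cls

end Pool.Agent.SH
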