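import Pool.Agent.Helper66.SG.Process
import Pool.Agent.Helper66.SG.Greedy

/-!
# Strong edge colouring from a level process with a general acceptance rule: definitions
-/

set_option autoImplicit false

namespace Pool.Agent.SH

open Finset Pool.Agent.SG
open Pool.Agent.SEC (pr)
open scoped Classical

variable {V : Type} [Fintype V]

/-- the edges of the accepted arcs which forbid a colour at `(z, y)` and whose head is adjacent to
`z` (smaller level) or which belong to the same star (smaller index) -/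
noncomputable def fb1 (adj : V → V → Prop) {K N : ℕ} (l : V → Fin K → Fin N)
    (acc : V → V → Prop) (sx : V → ℕ) (z y : V) : Finset (Sym2 V) :=
  (univ.filter (fun a : V × V => acc a.1 a.2 ∧
    ((adj z a.2 ∧ dl adj l a.2 < dl adj l y) ∨ (a.1 = z ∧ sx a.2 < sx y)))).image
      (fun a => s(a.1, a.2))

/-- the edges of the accepted arcs of smaller level whose head is adjacent to `y` -/
noncomputable def fb2 (adj : V → V → Prop) {K N : ℕ} (l : V → Fin K → Fin N)
    (acc : V → V → Prop) (y : V) : Finset (Sym2 V) :=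
  (univ.filter (fun a : V × V => acc a.1 a.2 ∧ adj y a.2 ∧
    dl adj l a.2 < dl adj l y)).image (fun a => s(a.1, a.2))

/-- A local acceptance rule for the arcs of the level process, for each type `t : τ`, such that at
every accepted arc at most `β t * Δ` colours are forbidden. -/
structure Scheme (V : Type) [Fintype V] (adj : V → V → Prop) (K N : ℕ) (τ : Type) (r : ℕ)
    (β : τ → ℝ) (Δ : ℕ) where
  acc : τ → (V → Fin K → Fin N) → V → V → Prop
  sx : τ → V → ℕ
  sx_inj : ∀ t, Function.Injective (sx t)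
  sx_lt : ∀ t v, sx t v < Fintype.card V
  isArc : ∀ t l z y, acc t l z y → ∃ k < K, SG.arc adj l k z y
  loc : ∀ t l l' z y, (∀ v ∈ ball adj r z, l v = l' v) → (acc t l z y ↔ acc t l' z y)
  load : ∀ t l z y, acc t l z y →
    ((fb1 adj l (acc t l) (sx t) z y).card : ℝ) + (fb2 adj l (acc t l) y).card ≤ β t * Δ

/-- Existence, for every `ε`, of schemes in all graphs covering every edge with ratio `c + ε`. -/
def HasScheme (c : ℝ) : Prop :=
  ∀ ε : ℝ, 0 < ε → ∃ (τ : Type) (_ : Fintype τ) (β : τ → ℝ) (lam : ℝ) (L : ℕ), 0 < lam ∧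
    (∀ t, 0 ≤ β t) ∧ ∑ t, β t ≤ (c + ε) * lam ∧ ∀ H₀ : ℕ, ∃ H : ℕ, H₀ ≤ H ∧ ∃ r Δ₁ : ℕ,
      ∀ Δ : ℕ, Δ₁ ≤ Δ → ∀ (V : Type) [Fintype V] (adj : V → V → Prop),
        (∀ x y, adj x y → adj y x) → (∀ x, ¬ adj x x) → (∀ v, (nb adj v).card ≤ Δ) →
        ∃ S : Scheme V adj (L * H) (H * Δ) τ r β Δ, ∀ x y, adj x y →
          lam / Δ ≤ ∑ t, pr (fun l : V → Fin (L * H) → Fin (H * Δ) =>
            S.acc t l x y ∨ S.acc t l y x)

/-- the tests: the edges at `v`; the two parts of the set forbidding colours at an accepted arc -/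
noncomputable def test {adj : V → V → Prop} {K N : ℕ} {τ : Type} {r : ℕ} {β : τ → ℝ} {Δ : ℕ}
    (S : Scheme V adj K N τ r β Δ) :
    V ⊕ (τ × V × V × Bool) → (V → Fin K → Fin N) → Finset (Sym2 V)
  | .inl v, _ => (nb adj v).image (fun w => s(v, w))
  | .inr (t, z, y, true), l =>
      if S.acc t l z y then fb1 adj l (S.acc t l) (S.sx t) z y else ∅
  | .inr (t, z, y, false), l => if S.acc t l z y then fb2 adj l (S.acc t l) y else ∅

/-- where a test lives -/
noncomputable def tball (adj : V → V → Prop) {τ : Type} (n : ℕ) :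
    V ⊕ (τ × V × V × Bool) → Finset V
  | .inl v => ball adj (n + 3) v
  | .inr (_, z, y, _) => if adj z y then ball adj (n + 3) z else ∅

/-- the accepted arcs which are used -/
noncomputable def used (adj : V → V → Prop) {K N : ℕ} (l : V → Fin K → Fin N)
    (acc : V → V → Prop) (sx : V → ℕ) (U : Finset (Sym2 V)) (b : ℕ) : Finset (V × V) :=
  univ.filter (fun a => acc a.1 a.2 ∧ s(a.1, a.2) ∈ U ∧
    (fb1 adj l acc sx a.1 a.2 ∩ U).card + (fb2 adj l acc a.2 ∩ U).card ≤ b)

/-- for a head `y` of a used arc `(z, y)`: the heads of used arcs coloured before `y` and in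
conflict with it -/
noncomputable def back (adj : V → V → Prop) {K N : ℕ} (l : V → Fin K → Fin N)
    (acc : V → V → Prop) (sx : V → ℕ) (U : Finset (Sym2 V)) (b : ℕ) (y : V) : Finset V :=
  univ.filter (fun y' => ∃ z z', (z, y) ∈ used adj l acc sx U b ∧
    (z', y') ∈ used adj l acc sx U b ∧
    ((dl adj l y' < dl adj l y ∧ (adj z y' ∨ adj y y')) ∨ (z' = z ∧ sx y' < sx y)))

/-- the colour of a head; `acc` is the acceptance rule of one type -/
noncomputable def colr (adj : V → V → Prop) {K N P : ℕ} (acc : (V → Fin K → Fin N) → V → V → Prop)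
    (sx : V → ℕ) (U : Finset (Sym2 V)) (b : ℕ) (l : V → Fin K → Fin N)
    (π : V → Equiv.Perm (Fin P)) (y : V) : Option (Fin P) :=
  gcol (ord adj l sx) (back adj l (acc l) sx U b) π y

/-- one random induced matching, contained in `U` -/
noncomputable def cls (adj : V → V → Prop) {K N P : ℕ} (acc : (V → Fin K → Fin N) → V → V → Prop)
    (sx : V → ℕ) (U : Finset (Sym2 V)) (b : ℕ) (c₀ : Fin P)
    (ω : V → (Fin K → Fin N) × Equiv.Perm (Fin P)) : Finset (Sym2 V) :=
  ((used adj (fun v => (ω v).1) (acc (fun v => (ω v).1)) sx U b).filter (fun a =>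
    colr adj acc sx U b (fun v => (ω v).1) (fun v => (ω v).2) a.2 = some c₀ ∧
    ∀ z' y', adj a.2 y' → z' ≠ a.1 →
      (z', y') ∈ used adj (fun v => (ω v).1) (acc (fun v => (ω v).1)) sx U b →
      dl adj (fun v => (ω v).1) y' = dl adj (fun v => (ω v).1) a.2 →
      colr adj acc sx U b (fun v => (ω v).1) (fun v => (ω v).2) y' ≠ some c₀)).image
    (fun a => s(a.1, a.2))

end Pool.Agent.SH
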